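import Mathlib

/-!
# Project H866-VD (frozen statement S11298): vertex deletion and chromatic Ramsey numbers

Definitions and task statements.
-/

set_option autoImplicit false

open Finset

namespace Pool.Agent.H866R4.VD

/-- The quadratic form of a matrix. -/
noncomputable def Q {V : Type} [Fintype V] (A : V → V → ℝ) (z : V → ℝ) : ℝ :=
  ∑ x, ∑ y, A x y * z x * z y

/-- Hoffman certificate with ratio `> κ`: a symmetric weighting `A` of the edges of `G` with least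
eigenvalue `≥ -1` and largest eigenvalue `> κ`. -/
def Cert {V : Type} [Fintype V] (G : SimpleGraph V) (κ : ℝ) : Prop :=
  ∃ A : V → V → ℝ, (∀ x y, A x y = A y x) ∧ (∀ x y, ¬ G.Adj x y → A x y = 0) ∧
    (∀ z : V → ℝ, -∑ x, z x ^ 2 ≤ Q A z) ∧ ∃ w : V → ℝ, κ * ∑ x, w x ^ 2 < Q A w

/-- Strict vector colouring of value `κ + 1`, as a Gram matrix. -/
def Gram {V : Type} [Fintype V] (G : SimpleGraph V) (κ : ℝ) : Prop :=
  ∃ U : V → V → ℝ, (∀ x y, U x y = U y x) ∧ (∀ z : V → ℝ, 0 ≤ Q U z) ∧ (∀ x, U x x = 1) ∧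
    ∀ x y, G.Adj x y → U x y = -(1 / κ)

/-- Categorical product. -/
def catProd {V W : Type} (F : SimpleGraph V) (F' : SimpleGraph W) : SimpleGraph (V × W) where
  Adj p q := F.Adj p.1 q.1 ∧ F'.Adj p.2 q.2
  symm := ⟨fun _ _ h => ⟨h.1.symm, h.2.symm⟩⟩
  loopless := ⟨fun _ h => h.1.ne rfl⟩

/-- Every edge is in at most one triangle. -/
def Loc {V : Type} (T : SimpleGraph V) : Prop :=
  ∀ x y y₁ y₂, T.Adj x y → T.Adj x y₁ → T.Adj x y₂ → T.Adj y y₁ → T.Adj y y₂ → y₁ = y₂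

/-- D. Duality. -/
def TaskDual : Prop :=
  ∀ n κ : ℕ, 1 ≤ κ → 4 * (κ + 1) ^ 2 ≤ n → ∀ F : SimpleGraph (Fin n),
    Cert F (κ : ℝ) ∨ Cert Fᶜ (κ : ℝ)

/-- P. Product. -/
def TaskProd : Prop :=
  ∀ (V W : Type) [Fintype V] [Fintype W] (F : SimpleGraph V) (F' : SimpleGraph W) (κ : ℝ),
    1 ≤ κ → Cert F κ → Cert F' κ → Cert (catProd F F') κ

/-- N. A graph with a certificate has no homomorphism to a graph with a vector colouring. -/
def TaskNoHom : Prop :=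
  ∀ (V W : Type) [Fintype V] [Fintype W] (H : SimpleGraph V) (F : SimpleGraph W) (κ : ℝ),
    0 < κ → Cert H κ → Gram F κ → ¬ Nonempty (H →g F)

/-- T. The graph `(a,b) ~ (c,d) iff b + d = a c` over `ZMod p`. -/
def TaskT : Prop :=
  ∀ p s κ : ℕ, p.Prime → p ≤ s ^ 2 → κ + 1 = p * s →
    ∃ T : SimpleGraph (Fin (p ^ 2)), Loc T ∧ Gram Tᶜ (κ : ℝ)

/-- B. Ramsey theorem for blow-ups. -/
def TaskBlow : Prop :=
  ∀ N M : ℕ, ∃ m : ℕ, ∀ col : (Fin N × Fin m) → (Fin N × Fin m) → Bool,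
    (∀ a b, col a b = col b a) →
    ∃ (S : Fin N → Finset (Fin m)) (c : Fin N → Fin N → Bool), (∀ i j, c i j = c j i) ∧
      (∀ i, (S i).card = M) ∧ ∀ i j, i ≠ j → ∀ a ∈ S i, ∀ b ∈ S j, col (i, a) (j, b) = c i j

/-- A. The colouring without a monochromatic homomorphic image of `K_1 + H`. -/
def TaskAvoid : Prop :=
  TaskNoHom → ∀ τ l κ m : ℕ, 1 ≤ κ → 3 * l ≤ κ + 1 → ∀ T : SimpleGraph (Fin τ), Loc T →
    Gram Tᶜ (κ : ℝ) → ∀ H : SimpleGraph (Fin m), Cert H (κ : ℝ) →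
    ∃ col : Fin (τ * l) → Fin (τ * l) → Bool, (∀ a b, col a b = col b a) ∧
      ∀ (b : Bool) (x : Fin (τ * l)) (f : Fin m → Fin (τ * l)),
        ¬ ((∀ i, f i ≠ x ∧ col x (f i) = b) ∧
          ∀ i j, H.Adj i j → f i ≠ f j ∧ col (f i) (f j) = b)

/-- F. The generic graph. -/
def TaskFamily : Prop :=
  TaskProd → ∀ n κ : ℕ, 1 ≤ κ →
    (∀ F : SimpleGraph (Fin n), Cert F (κ : ℝ) ∨ Cert Fᶜ (κ : ℝ)) →
    ∃ (m : ℕ) (H : SimpleGraph (Fin m)), Cert H (κ : ℝ) ∧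
      ∀ F : SimpleGraph (Fin n), Cert F (κ : ℝ) → Nonempty (H →g F)

end Pool.Agent.H866R4.VD
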