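import Pool.Agent.H866R4.VD.Stmts
import Pool.Agent.H866R3.Upper
set_option autoImplicit false
open Finset
open scoped Classical

namespace Pool.Agent.H866R4.VD

theorem upper_chi (hB : TaskBlow) {n' m : ℕ} {κ : ℝ} (H : SimpleGraph (Fin m))
    (hdual : ∀ F : SimpleGraph (Fin n'), Cert F κ ∨ Cert Fᶜ κ)
    (hgen : ∀ F : SimpleGraph (Fin n'), Cert F κ → Nonempty (H →g F)) :
    ∃ (k : ℕ) (K : SimpleGraph (Fin k)), K.Colorable n' ∧
      ∀ col : Fin k → Fin k → Bool, (∀ a b, col a b = col b a) →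
        ∃ (f : Fin m → Fin k) (b : Bool), Function.Injective f ∧
          ∀ x y, H.Adj x y → K.Adj (f x) (f y) ∧ col (f x) (f y) = b := by
  obtain ⟨M, hM⟩ := hB n' m
  set e : Fin n' × Fin M ≃ Fin (n' * M) := finProdFinEquiv with he
  refine ⟨n' * M, ⟨fun a b => (e.symm a).1 ≠ (e.symm b).1, ⟨fun _ _ h => h.symm⟩,
    ⟨fun _ h => h rfl⟩⟩, ⟨SimpleGraph.Coloring.mk (fun a => (e.symm a).1) (fun h => h)⟩, ?_⟩
  intro col hcol
  obtain ⟨S, c, hc, hS, hSc⟩ := hM (fun p q => col (e p) (e q)) (fun p q => hcol _ _)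
  have hg : ∀ i, Nonempty (Fin m ≃ S i) := fun i =>
    ⟨(Fintype.equivFinOfCardEq (by simpa using hS i)).symm⟩
  choose g _ using fun i => exists_true_iff_nonempty.2 (hg i)
  have main : ∀ (φ : Fin m → Fin n') (b : Bool), (∀ x y, H.Adj x y → φ x ≠ φ y ∧
      c (φ x) (φ y) = b) → ∃ (f : Fin m → Fin (n' * M)) (b : Bool), Function.Injective f ∧
          ∀ x y, H.Adj x y → (e.symm (f x)).1 ≠ (e.symm (f y)).1 ∧ col (f x) (f y) = b := by
    intro φ b hφ
    refine ⟨fun x => e (φ x, (g (φ x) x : Fin M)), b, ?_, ?_⟩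
    · intro x y hxy
      have h1 := e.injective hxy
      rw [Prod.mk.injEq] at h1
      obtain ⟨h2, h3⟩ := h1
      rw [h2] at h3
      exact (g (φ y)).injective (Subtype.ext h3)
    · intro x y hxy
      obtain ⟨h1, h2⟩ := hφ x y hxy
      refine ⟨by simpa using h1, ?_⟩
      rw [← h2]
      exact hSc (φ x) (φ y) h1 _ (g (φ x) x).2 _ (g (φ y) y).2
  set F : SimpleGraph (Fin n') := ⟨fun i j => i ≠ j ∧ c i j = true,
    ⟨fun i j h => ⟨h.1.symm, by rw [hc]; exact h.2⟩⟩, ⟨fun _ h => h.1 rfl⟩⟩ with hF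
  rcases hdual F with h | h
  · obtain ⟨φ⟩ := hgen F h
    exact main φ true (fun x y hxy => φ.map_adj hxy)
  · obtain ⟨φ⟩ := hgen Fᶜ h
    refine main φ false (fun x y hxy => ?_)
    have h1 := φ.map_adj hxy
    rw [SimpleGraph.compl_adj] at h1
    refine ⟨h1.1, ?_⟩
    have h2 : ¬ (φ x ≠ φ y ∧ c (φ x) (φ y) = true) := h1.2
    simpa [h1.1] using h2

theorem lower_chi {m N : ℕ} (H : SimpleGraph (Fin m)) (G : SimpleGraph (Fin (m + 1)))
    (hG0 : ∀ i : Fin m, G.Adj 0 i.succ) (hGs : ∀ i j, H.Adj i j → G.Adj i.succ j.succ)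
    (col₀ : Fin N → Fin N → Bool) (hsym : ∀ a b, col₀ a b = col₀ b a)
    (havoid : ∀ (b : Bool) (x : Fin N) (f : Fin m → Fin N),
        ¬ ((∀ i, f i ≠ x ∧ col₀ x (f i) = b) ∧
          ∀ i j, H.Adj i j → f i ≠ f j ∧ col₀ (f i) (f j) = b)) (N' : ℕ)
    (hN' : ∃ (k : ℕ) (K : SimpleGraph (Fin k)), K.Colorable N' ∧
      ∀ col : Fin k → Fin k → Bool, (∀ a b, col a b = col b a) →
        ∃ (f : Fin (m + 1) → Fin k) (b : Bool), Function.Injective f ∧
          ∀ x y, G.Adj x y → K.Adj (f x) (f y) ∧ col (f x) (f y) = b) : N < N' := by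
  by_contra hcon
  push Not at hcon
  obtain ⟨k, K, hK, hR⟩ := hN'
  obtain ⟨C⟩ := hK.mono hcon
  obtain ⟨f, b, -, hf⟩ := hR (fun a b => col₀ (C a) (C b)) (fun a b => hsym _ _)
  refine havoid b (C (f 0)) (fun i => C (f i.succ)) ⟨fun i => ?_, fun i j hij => ?_⟩
  · obtain ⟨h1, h2⟩ := hf 0 i.succ (hG0 i)
    exact ⟨(C.valid h1).symm, h2⟩
  · obtain ⟨h1, h2⟩ := hf i.succ j.succ (hGs i j hij)
    exact ⟨C.valid h1, h2⟩

theorem nonempty_chi {m : ℕ} (G : SimpleGraph (Fin m)) :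
    {N : ℕ | ∃ (k : ℕ) (K : SimpleGraph (Fin k)), K.Colorable N ∧
      ∀ col : Fin k → Fin k → Bool, (∀ a b, col a b = col b a) →
        ∃ (f : Fin m → Fin k) (b : Bool), Function.Injective f ∧
          ∀ x y, G.Adj x y → K.Adj (f x) (f y) ∧ col (f x) (f y) = b}.Nonempty := by
  obtain ⟨R, hR⟩ := Pool.Agent.H866R3.ramsey_exists G
  refine ⟨R, R, ⊤, ?_, ?_⟩
  · exact ⟨SimpleGraph.Coloring.mk id (fun h => h)⟩
  · intro col hcol
    obtain ⟨H', hH'⟩ : ∃ H' : SimpleGraph (Fin R), ∀ x y, H'.Adj x y ↔ x ≠ y ∧ col x y = true :=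
      ⟨⟨fun x y => x ≠ y ∧ col x y = true, ⟨fun x y h => ⟨h.1.symm, by rw [hcol]; exact h.2⟩⟩,
        ⟨fun _ h => h.1 rfl⟩⟩, fun _ _ => Iff.rfl⟩
    rcases hR H' with h0 | h0
    · obtain ⟨f⟩ := h0
      refine ⟨f, true, f.injective, fun x y hxy => ?_⟩
      have h1 := (hH' _ _).1 (f.toHom.map_adj hxy)
      exact ⟨h1.1, h1.2⟩
    · obtain ⟨f⟩ := h0
      refine ⟨f, false, f.injective, fun x y hxy => ?_⟩
      have h1 := f.toHom.map_adj hxy
      rw [SimpleGraph.compl_adj, hH'] at h1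
      refine ⟨h1.1, ?_⟩
      have h2 : ¬ (col (f x) (f y) = true) := fun h => h1.2 ⟨h1.1, h⟩
      simpa using h2

/-- `K_1 + H`. -/
def cone {m : ℕ} (H : SimpleGraph (Fin m)) : SimpleGraph (Fin (m + 1)) where
  Adj x y := (x = 0 ∧ y ≠ 0) ∨ (x ≠ 0 ∧ y = 0) ∨ ∃ i j : Fin m, x = i.succ ∧ y = j.succ ∧ H.Adj i j
  symm := ⟨by
    rintro x y (h | h | ⟨i, j, h1, h2, h3⟩)
    · exact Or.inr (Or.inl ⟨h.2, h.1⟩)
    · exact Or.inl ⟨h.2, h.1⟩
    · exact Or.inr (Or.inr ⟨j, i, h2, h1, h3.symm⟩)⟩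
  loopless := ⟨by
    rintro x (h | h | ⟨i, j, h1, h2, h3⟩)
    · exact h.2 h.1
    · exact h.1 h.2
    · rw [h1] at h2
      have := Fin.succ_injective _ h2
      subst this
      exact h3.ne rfl⟩

theorem final (hP : TaskProd) (hN : TaskNoHom) (hT : TaskT) (hB : TaskBlow) (hA : TaskAvoid)
    (hF : TaskFamily) (hD : TaskDual) :
    ¬ (∃ c : ℝ, 0 < c ∧
      ∀ (n : ℕ) (G : SimpleGraph (Fin (n + 1))) (v : Fin (n + 1)),
        G.edgeSet.Nonempty →
          c * ((sInf {N : ℕ | ∃ (m : ℕ) (H : SimpleGraph (Fin m)), H.Colorable N ∧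
                ∀ col : Fin m → Fin m → Bool, (∀ a b, col a b = col b a) →
                  ∃ (f : Fin (n + 1) → Fin m) (b : Bool),
                  Function.Injective f ∧
                  ∀ x y : Fin (n + 1), G.Adj x y →
                    H.Adj (f x) (f y) ∧ col (f x) (f y) = b} : ℕ) : ℝ)
            ≤ ((sInf {N : ℕ | ∃ (m : ℕ) (H : SimpleGraph (Fin m)), H.Colorable N ∧
                ∀ col : Fin m → Fin m → Bool, (∀ a b, col a b = col b a) →
                  ∃ (f : Fin n → Fin m) (b : Bool),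
                  Function.Injective f ∧
                  ∀ x y : Fin n, G.Adj (v.succAbove x) (v.succAbove y) →
                    H.Adj (f x) (f y) ∧ col (f x) (f y) = b} : ℕ) : ℝ)) := by
  rintro ⟨c, hc, h⟩
  obtain ⟨a, ha⟩ := exists_nat_gt ((48 / c) ^ 2)
  obtain ⟨p, hpa, hp⟩ := Nat.exists_infinite_primes (a + 6)
  set r := Nat.sqrt p with hr
  set s := r + 1 with hs
  have hp6 : 6 ≤ p := by omega
  have hps : p ≤ s ^ 2 := by
    have := Nat.lt_succ_sqrt p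
    rw [hs, sq]
    exact this.le
  have hr1 : 1 ≤ r := by
    rw [hr, Nat.le_sqrt]; omega
  have hs4 : s ^ 2 ≤ 4 * p := by
    have h1 : r * r ≤ p := Nat.sqrt_le p
    rw [hs]
    nlinarith
  have hs1 : 1 ≤ s := by omega
  obtain ⟨κ, hκ⟩ : ∃ κ, κ + 1 = p * s := ⟨p * s - 1, by
    have : 1 ≤ p * s := Nat.mul_pos (by omega) (by omega)
    omega⟩
  have hκ1 : 1 ≤ κ := by
    have : 6 * 1 ≤ p * s := Nat.mul_le_mul hp6 hs1
    omega
  obtain ⟨T, hTl, hTg⟩ := hT p s κ hp hps hκ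
  set n' := 4 * (κ + 1) ^ 2 with hn'
  obtain ⟨m, H, hHc, hHg⟩ := hF hP n' κ hκ1 (hD n' κ hκ1 le_rfl)
  set l := (κ + 1) / 3 with hl
  have hl3 : 3 * l ≤ κ + 1 := Nat.mul_div_le _ _
  obtain ⟨col₀, hsym, havoid⟩ := hA hN (p ^ 2) l κ m hκ1 hl3 T hTl hTg H hHc
  have hm : 1 ≤ m := by
    rcases Nat.eq_zero_or_pos m with h0 | h0
    · subst h0
      obtain ⟨A, -, -, -, w, hw⟩ := hHc
      simp [Q] at hw
    · exact h0
  have hadj0 : ∀ i : Fin m, (cone H).Adj 0 i.succ := fun i => Or.inl ⟨rfl, Fin.succ_ne_zero i⟩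
  have hadjs : ∀ i j : Fin m, (cone H).Adj i.succ j.succ ↔ H.Adj i j := by
    intro i j
    constructor
    · rintro (h1 | h1 | ⟨i', j', h1, h2, h3⟩)
      · exact absurd h1.1 (Fin.succ_ne_zero i)
      · exact absurd h1.2 (Fin.succ_ne_zero j)
      · rw [Fin.succ_injective _ h1, Fin.succ_injective _ h2]
        exact h3
    · intro h1
      exact Or.inr (Or.inr ⟨i, j, rfl, rfl, h1⟩)
  have hedge : (cone H).edgeSet.Nonempty := by
    refine ⟨s((0 : Fin (m + 1)), (⟨0, hm⟩ : Fin m).succ), ?_⟩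
    rw [SimpleGraph.mem_edgeSet]
    exact hadj0 _
  have hmain := h m (cone H) 0 hedge
  have h1 : p ^ 2 * l < sInf {N : ℕ | ∃ (m_1 : ℕ) (K : SimpleGraph (Fin m_1)), K.Colorable N ∧
                ∀ col : Fin m_1 → Fin m_1 → Bool, (∀ a b, col a b = col b a) →
                  ∃ (f : Fin (m + 1) → Fin m_1) (b : Bool),
                  Function.Injective f ∧
                  ∀ x y : Fin (m + 1), (cone H).Adj x y →
                    K.Adj (f x) (f y) ∧ col (f x) (f y) = b} := by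
    exact lower_chi H (cone H) hadj0 (fun i j hij => (hadjs i j).2 hij) col₀ hsym havoid _
      (Nat.sInf_mem (nonempty_chi (cone H)))
  have h2 : sInf {N : ℕ | ∃ (m_1 : ℕ) (K : SimpleGraph (Fin m_1)), K.Colorable N ∧
                ∀ col : Fin m_1 → Fin m_1 → Bool, (∀ a b, col a b = col b a) →
                  ∃ (f : Fin m → Fin m_1) (b : Bool),
                  Function.Injective f ∧
                  ∀ x y : Fin m, (cone H).Adj ((0 : Fin (m + 1)).succAbove x)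
                      ((0 : Fin (m + 1)).succAbove y) →
                    K.Adj (f x) (f y) ∧ col (f x) (f y) = b} ≤ n' := by
    apply Nat.sInf_le
    obtain ⟨k, K, hK, hR⟩ := upper_chi hB H (hD n' κ hκ1 le_rfl) hHg
    refine ⟨k, K, hK, fun col hcol => ?_⟩
    obtain ⟨f, b, hf, hfb⟩ := hR col hcol
    refine ⟨f, b, hf, fun x y hxy => hfb x y ?_⟩
    rw [Fin.succAbove_zero] at hxy
    exact (hadjs x y).1 hxy
  have h1R : ((p ^ 2 * l : ℕ) : ℝ) ≤ _ := Nat.cast_le.2 h1.le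
  have h2R : _ ≤ ((n' : ℕ) : ℝ) := Nat.cast_le.2 h2
  have h3 : c * ((p ^ 2 * l : ℕ) : ℝ) ≤ (n' : ℝ) :=
    (mul_le_mul_of_nonneg_left h1R hc.le).trans (hmain.trans h2R)
  have hl6 : p * s ≤ 6 * l := by
    have : 6 ≤ p * s := le_trans (by omega) (Nat.mul_le_mul hp6 hs1)
    rw [hl, hκ]
    omega
  rw [hn', hκ] at h3
  push_cast at h3
  have hpR : (0 : ℝ) < p := by exact_mod_cast hp.pos
  have hsR : (0 : ℝ) < s := by exact_mod_cast hs1
  have hl6R : (p : ℝ) * s ≤ 6 * l := by exact_mod_cast hl6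
  have hs4R : (s : ℝ) ^ 2 ≤ 4 * p := by exact_mod_cast hs4
  have h4 : c * ((p : ℝ) ^ 2 * (p * s)) ≤ 24 * (p * s) ^ 2 := by
    have : c * ((p : ℝ) ^ 2 * (p * s)) ≤ c * ((p : ℝ) ^ 2 * (6 * l)) := by gcongr
    nlinarith
  have h5 : c * p ≤ 24 * s := by
    have h6 : (p ^ 2 * s : ℝ) * (c * p) ≤ (p ^ 2 * s) * (24 * s) := by nlinarith
    exact le_of_mul_le_mul_left h6 (by positivity)
  have h7 : c ^ 2 * p ≤ 48 ^ 2 := by
    have h8 : (c * p) ^ 2 ≤ (24 * s) ^ 2 := pow_le_pow_left₀ (by positivity) h5 2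
    have h9 : (p : ℝ) * (c ^ 2 * p) ≤ p * 48 ^ 2 := by nlinarith
    exact le_of_mul_le_mul_left h9 hpR
  have h10 : (a : ℝ) + 6 ≤ p := by exact_mod_cast hpa
  have h11 : (48 / c) ^ 2 < p := by linarith
  rw [div_pow, div_lt_iff₀ (by positivity)] at h11
  linarith

end Pool.Agent.H866R4.VD
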