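import Pool.Agent.H866R4.VD.Stmts
set_option autoImplicit false
open Finset
open scoped Classical

namespace Pool.Agent.H866R4.VD.DualPart
open Pool.Agent.H866R4.VD

variable {n : ℕ}

/-- PSD matrices of trace one. -/
def XX (n : ℕ) : Set (Fin n → Fin n → ℝ) :=
  {X | (∀ x y, X x y = X y x) ∧ (∀ z : Fin n → ℝ, 0 ≤ Q X z) ∧ ∑ x, X x x = 1 ∧
    ∀ x y, X x y ∈ Set.Icc (-1 : ℝ) 1}

/-- Bounded symmetric matrices on the edges of `F`. -/
def TT (F : SimpleGraph (Fin n)) (ρ : ℝ) : Set (Fin n → Fin n → ℝ) :=
  {T | (∀ x y, T x y = T y x) ∧ (∀ x y, ¬ F.Adj x y → T x y = 0) ∧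
    ∀ x y, T x y ∈ Set.Icc (-ρ) ρ}

theorem box_compact (a b : ℝ) :
    IsCompact {X : Fin n → Fin n → ℝ | ∀ x y, X x y ∈ Set.Icc a b} := by
  have h : {X : Fin n → Fin n → ℝ | ∀ x y, X x y ∈ Set.Icc a b} =
      Set.pi Set.univ (fun _ => Set.pi Set.univ (fun _ => Set.Icc a b)) := by
    ext X
    simp only [Set.mem_ofPred_eq, Set.mem_pi, Set.mem_univ, forall_true_left]
  rw [h]
  exact isCompact_univ_pi fun _ => isCompact_univ_pi fun _ => isCompact_Icc

theorem XX_compact : IsCompact (XX n) := by
  refine (box_compact (n := n) (-1) 1).of_isClosed_subset ?_ (fun X hX => hX.2.2.2)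
  have : XX n = (⋂ x, ⋂ y, {X : Fin n → Fin n → ℝ | X x y = X y x}) ∩
      ((⋂ z : Fin n → ℝ, {X | 0 ≤ Q X z}) ∩ ({X | ∑ x, X x x = 1} ∩
      ⋂ x, ⋂ y, {X : Fin n → Fin n → ℝ | X x y ∈ Set.Icc (-1 : ℝ) 1})) := by
    ext X
    simp only [XX, Set.mem_ofPred_eq, Set.mem_inter_iff, Set.mem_iInter]
  rw [this]
  refine IsClosed.inter (isClosed_iInter fun x => isClosed_iInter fun y => ?_)
    (IsClosed.inter (isClosed_iInter fun z => ?_) (IsClosed.inter ?_
      (isClosed_iInter fun x => isClosed_iInter fun y => ?_)))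
  · exact isClosed_eq (by fun_prop) (by fun_prop)
  · exact isClosed_le continuous_const (by unfold Q; fun_prop)
  · exact isClosed_eq (by fun_prop) continuous_const
  · exact isClosed_Icc.preimage (by fun_prop : Continuous fun X : Fin n → Fin n → ℝ => X x y)

theorem TT_compact (F : SimpleGraph (Fin n)) (ρ : ℝ) : IsCompact (TT F ρ) := by
  refine (box_compact (n := n) (-ρ) ρ).of_isClosed_subset ?_ (fun X hX => hX.2.2)
  have : TT F ρ = (⋂ x, ⋂ y, {X : Fin n → Fin n → ℝ | X x y = X y x}) ∩
      ((⋂ x, ⋂ y, ⋂ (_ : ¬ F.Adj x y), {X : Fin n → Fin n → ℝ | X x y = 0}) ∩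
      ⋂ x, ⋂ y, {X : Fin n → Fin n → ℝ | X x y ∈ Set.Icc (-ρ) ρ}) := by
    ext X
    simp only [TT, Set.mem_ofPred_eq, Set.mem_inter_iff, Set.mem_iInter]
  rw [this]
  refine IsClosed.inter (isClosed_iInter fun x => isClosed_iInter fun y => ?_)
    (IsClosed.inter (isClosed_iInter fun x => isClosed_iInter fun y => isClosed_iInter fun _ => ?_)
      (isClosed_iInter fun x => isClosed_iInter fun y => ?_))
  · exact isClosed_eq (by fun_prop) (by fun_prop)
  · exact isClosed_eq (by fun_prop) continuous_const
  · exact isClosed_Icc.preimage (by fun_prop : Continuous fun X : Fin n → Fin n → ℝ => X x y)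

theorem Q_lin (A B : Fin n → Fin n → ℝ) (a b : ℝ) (z : Fin n → ℝ) :
    Q (a • A + b • B) z = a * Q A z + b * Q B z := by
  unfold Q
  simp only [Pi.add_apply, Pi.smul_apply, smul_eq_mul, mul_sum, ← sum_add_distrib]
  apply sum_congr rfl
  intro x _
  apply sum_congr rfl
  intro y _
  ring

theorem XX_convex : Convex ℝ (XX n) := by
  intro A hA B hB a b ha hb hab
  refine ⟨fun x y => ?_, fun z => ?_, ?_, fun x y => ?_⟩
  · simp only [Pi.add_apply, Pi.smul_apply, smul_eq_mul, hA.1 x y, hB.1 x y]
  · rw [Q_lin]
    have h1 := hA.2.1 z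
    have h2 := hB.2.1 z
    positivity
  · simp only [Pi.add_apply, Pi.smul_apply, smul_eq_mul, sum_add_distrib, ← mul_sum]
    rw [hA.2.2.1, hB.2.2.1]
    linarith
  · have h1 := hA.2.2.2 x y
    have h2 := hB.2.2.2 x y
    exact (convex_Icc (-1 : ℝ) 1) h1 h2 ha hb hab

theorem TT_convex (F : SimpleGraph (Fin n)) (ρ : ℝ) : Convex ℝ (TT F ρ) := by
  intro A hA B hB a b ha hb hab
  refine ⟨fun x y => ?_, fun x y h => ?_, fun x y => ?_⟩
  · simp only [Pi.add_apply, Pi.smul_apply, smul_eq_mul, hA.1 x y, hB.1 x y]
  · simp only [Pi.add_apply, Pi.smul_apply, smul_eq_mul, hA.2.1 x y h, hB.2.1 x y h]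
    ring
  · have h1 := hA.2.2 x y
    have h2 := hB.2.2 x y
    exact (convex_Icc (-ρ) ρ) h1 h2 ha hb hab

theorem saddle (F : SimpleGraph (Fin n)) (ρ : ℝ) (hρ : 0 ≤ ρ) (hn : 1 ≤ n) :
    ∃ T ∈ TT F ρ, ∃ X ∈ XX n, ∀ T' ∈ TT F ρ, ∀ X' ∈ XX n,
      ∑ x, ∑ y, (1 + T x y) * X' x y ≤ ∑ x, ∑ y, (1 + T' x y) * X x y := by
  set f : (Fin n → Fin n → ℝ) → (Fin n → Fin n → ℝ) → ℝ :=
    fun T X => ∑ x, ∑ y, (1 + T x y) * X x y with hf
  have hn0 : (0 : ℝ) < n := by exact_mod_cast hn
  have hne1 : (TT F ρ).Nonempty := ⟨0, fun _ _ => rfl, fun _ _ _ => rfl, fun _ _ => by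
    constructor <;> simp [hρ]⟩
  have hne2 : (XX n).Nonempty := by
    refine ⟨fun x y => if x = y then 1 / n else 0, fun x y => ?_, fun z => ?_, ?_, fun x y => ?_⟩
    · by_cases h : x = y
      · simp [h]
      · simp [h, Ne.symm h]
    · unfold Q
      apply sum_nonneg
      intro x _
      apply sum_nonneg
      intro y _
      by_cases h : x = y
      · subst h
        simp only [if_true]
        have : 0 ≤ z x * z x := mul_self_nonneg _
        rw [mul_assoc]
        positivity
      · simp [h]
    · simp only [if_true, sum_const, card_univ, Fintype.card_fin, nsmul_eq_mul]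
      field_simp
    · dsimp only
      split_ifs
      · constructor
        · have : (0 : ℝ) ≤ 1 / n := by positivity
          linarith
        · rw [div_le_one hn0]
          exact_mod_cast hn
      · constructor <;> norm_num
  obtain ⟨T, hT, X, hX, hsad⟩ := Sion.exists_isSaddlePointOn' (X := TT F ρ)
    (Y := XX n) (f := f) hne1 (TT_compact F ρ)
    (fun X _ => by
      have : Continuous (fun T => f T X) := by simp only [hf]; fun_prop
      exact this.lowerSemicontinuous.lowerSemicontinuousOn _)
    (fun X _ => by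
      apply ConvexOn.quasiconvexOn
      refine ⟨TT_convex F ρ, fun T _ T' _ a b _ _ hab => ?_⟩
      simp only [hf, smul_eq_mul, mul_sum, ← sum_add_distrib]
      apply le_of_eq
      apply sum_congr rfl
      intro x _
      apply sum_congr rfl
      intro y _
      simp only [Pi.add_apply, Pi.smul_apply, smul_eq_mul]
      have : (1 : ℝ) = a + b := hab.symm
      calc (1 + (a * T x y + b * T' x y)) * X x y
          = ((a + b) + (a * T x y + b * T' x y)) * X x y := by rw [hab]
        _ = _ := by ring)
    XX_convex XX_compact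
    (fun T _ => by
      have : Continuous (f T) := by simp only [hf]; fun_prop
      exact this.upperSemicontinuous.upperSemicontinuousOn _)
    (fun T _ => by
      apply ConcaveOn.quasiconcaveOn
      refine ⟨XX_convex, fun X _ X' _ a b _ _ hab => ?_⟩
      simp only [hf, smul_eq_mul, mul_sum, ← sum_add_distrib]
      apply le_of_eq
      apply sum_congr rfl
      intro x _
      apply sum_congr rfl
      intro y _
      simp only [Pi.add_apply, Pi.smul_apply, smul_eq_mul]
      ring)
    (TT_convex F ρ) hne2
  exact ⟨T, hT, X, hX, fun T' hT' X' hX' => hsad T' hT' X' hX'⟩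

theorem cert_first (F : SimpleGraph (Fin n)) (κ v : ℝ) (hn : 1 ≤ n) (hv : 0 < v)
    (hvn : (κ + 1) * v < n) (T : Fin n → Fin n → ℝ) (hT1 : ∀ x y, T x y = T y x)
    (hT2 : ∀ x y, ¬ F.Adj x y → T x y = 0)
    (h : ∀ X' ∈ XX n, ∑ x, ∑ y, (1 + T x y) * X' x y ≤ v) : Cert F κ := by
  have hn0 : (0 : ℝ) < n := by exact_mod_cast hn
  have key : ∀ z : Fin n → ℝ, (∑ x, z x) ^ 2 + Q T z ≤ v * ∑ x, z x ^ 2 := by
    intro z
    set S := ∑ x, z x ^ 2 with hS
    have hS0 : 0 ≤ S := sum_nonneg fun x _ => sq_nonneg _
    rcases hS0.eq_or_lt with h0 | hpos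
    · have hz : ∀ x, z x = 0 := by
        intro x
        have := (sum_eq_zero_iff_of_nonneg (fun x _ => sq_nonneg (z x))).1 (hS.symm.trans h0.symm)
          x (mem_univ x)
        exact pow_eq_zero_iff (two_ne_zero) |>.1 this
      have h1 : Q T z = 0 := by
        unfold Q
        simp [hz]
      rw [h1, ← h0]
      simp [hz]
    · have hle : ∀ x, z x ^ 2 ≤ S := fun x =>
        single_le_sum (f := fun x => z x ^ 2) (fun i _ => sq_nonneg _) (mem_univ x)
      have hmem : (fun x y => z x * z y / S) ∈ XX n := by
        refine ⟨fun x y => by ring, fun u => ?_, ?_, fun x y => ?_⟩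
        · have : Q (fun x y => z x * z y / S) u = (∑ x, z x * u x) ^ 2 / S := by
            unfold Q
            rw [sq, sum_mul_sum, sum_div]
            apply sum_congr rfl
            intro x _
            rw [sum_div]
            apply sum_congr rfl
            intro y _
            ring
          rw [this]
          positivity
        · rw [← sum_div, div_eq_one_iff_eq hpos.ne', hS]
          apply sum_congr rfl
          intro x _
          ring
        · rw [Set.mem_Icc, le_div_iff₀ hpos, div_le_iff₀ hpos]
          have h1 := hle x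
          have h2 := hle y
          constructor
          · nlinarith [sq_nonneg (z x + z y)]
          · nlinarith [sq_nonneg (z x - z y)]
      have h1 := h _ hmem
      have h2 : ∑ x, ∑ y, (1 + T x y) * (z x * z y / S) = ((∑ x, z x) ^ 2 + Q T z) / S := by
        unfold Q
        rw [sq, sum_mul_sum, ← sum_add_distrib, sum_div]
        apply sum_congr rfl
        intro x _
        rw [← sum_add_distrib, sum_div]
        apply sum_congr rfl
        intro y _
        ring
      rw [h2, div_le_iff₀ hpos] at h1
      exact h1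
  refine ⟨fun x y => -(T x y) / v, fun x y => by simp only [hT1 x y], fun x y hxy => by
    simp only [hT2 x y hxy]; simp, fun z => ?_, fun _ => 1, ?_⟩
  · have h1 := key z
    have h2 : Q (fun x y => -(T x y) / v) z = -Q T z / v := by
      unfold Q
      rw [neg_div, sum_div, ← sum_neg_distrib]
      apply sum_congr rfl
      intro x _
      rw [sum_div, ← sum_neg_distrib]
      apply sum_congr rfl
      intro y _
      ring
    rw [h2, le_div_iff₀ hv]
    nlinarith [sq_nonneg (∑ x, z x)]
  · have h1 := key (fun _ => 1)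
    have h2 : Q (fun x y => -(T x y) / v) (fun _ => 1) = -Q T (fun _ => 1) / v := by
      unfold Q
      rw [neg_div, sum_div, ← sum_neg_distrib]
      apply sum_congr rfl
      intro x _
      rw [sum_div, ← sum_neg_distrib]
      apply sum_congr rfl
      intro y _
      ring
    rw [h2, lt_div_iff₀ hv]
    simp only [sum_const, card_univ, Fintype.card_fin, nsmul_eq_mul, mul_one, one_pow] at h1 ⊢
    nlinarith

theorem cert_second (F : SimpleGraph (Fin n)) (κ v ρ : ℝ) (hn : 1 ≤ n) (hρ : ρ = (n : ℝ) ^ 3)
    (hκ : 0 < κ) (hv : 2 * κ + 2 < v) (X : Fin n → Fin n → ℝ) (hX : X ∈ XX n)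
    (h : ∀ T' ∈ TT F ρ, v ≤ ∑ x, ∑ y, (1 + T' x y) * X x y) : Cert Fᶜ κ := by
  have hn0 : (0 : ℝ) < n := by exact_mod_cast hn
  have hn1 : (1 : ℝ) ≤ n := by exact_mod_cast hn
  have hρ0 : 0 < ρ := by rw [hρ]; positivity
  obtain ⟨hX1, hX2, hX3, hX4⟩ := hX
  set W : ℝ := ∑ x, ∑ y, if F.Adj x y then |X x y| else 0 with hW
  have hW0 : 0 ≤ W := sum_nonneg fun x _ => sum_nonneg fun y _ => by split_ifs <;> positivity
  set SX : ℝ := ∑ x, ∑ y, X x y with hSX
  have hSXn : SX ≤ (n : ℝ) ^ 2 := by
    calc SX ≤ ∑ x : Fin n, ∑ y : Fin n, (1 : ℝ) :=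
          sum_le_sum fun x _ => sum_le_sum fun y _ => (hX4 x y).2
      _ = (n : ℝ) ^ 2 := by simp [sq]
  -- test with T = - ρ sign X
  have h1 : v ≤ SX - ρ * W := by
    have hm : (fun x y => if F.Adj x y then -ρ * SignType.sign (X x y) else (0 : ℝ)) ∈ TT F ρ := by
      refine ⟨fun x y => ?_, fun x y hxy => by simp [hxy], fun x y => ?_⟩
      · have : F.Adj x y ↔ F.Adj y x := ⟨fun h => h.symm, fun h => h.symm⟩
        simp only [this, hX1 x y]
      · dsimp only
        split_ifs
        · rcases lt_trichotomy (X x y) 0 with h0 | h0 | h0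
          · simp [h0, hρ0.le]
          · simp [h0, hρ0.le]
          · simp [h0, hρ0.le]
        · simp [hρ0.le]
    refine (h _ hm).trans (le_of_eq ?_)
    rw [hSX, hW, mul_sum, ← sum_sub_distrib]
    apply sum_congr rfl
    intro x _
    rw [mul_sum, ← sum_sub_distrib]
    apply sum_congr rfl
    intro y _
    split_ifs
    · have : (SignType.sign (X x y) : ℝ) * X x y = |X x y| := by
        rw [mul_comm]
        exact self_mul_sign (X x y)
      linear_combination -ρ * this
    · ring
  set ε : ℝ := 1 / n with hε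
  have hε0 : 0 < ε := by positivity
  have hε1 : ε ≤ 1 := by rw [hε, div_le_one hn0]; exact hn1
  have hWε : W ≤ ε := by
    have h2 : ρ * W ≤ (n : ℝ) ^ 2 := by linarith
    rw [hε, le_div_iff₀ hn0]
    rw [hρ] at h2
    have h3 : (n : ℝ) ^ 2 * (W * n) ≤ (n : ℝ) ^ 2 * 1 := by nlinarith
    exact le_of_mul_le_mul_left h3 (by positivity)
  have hvSX : v ≤ SX := by nlinarith
  have hdiag0 : ∀ x, 0 ≤ X x x := by
    intro x
    have := hX2 (Pi.single x 1)
    have e : Q X (Pi.single x 1) = X x x := by
      unfold Q
      rw [sum_eq_single x, sum_eq_single x]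
      · simp
      · intro y _ hy
        simp [Pi.single_apply, hy]
      · simp
      · intro y _ hy
        apply sum_eq_zero
        intro w _
        simp [Pi.single_apply, hy]
      · simp
    rwa [e] at this
  set d : Fin n → ℝ := fun x => X x x + ε with hd
  have hd0 : ∀ x, 0 < d x := fun x => by
    have := hdiag0 x
    simp only [hd]
    linarith
  set C : Fin n → Fin n → ℝ := fun x y => if Fᶜ.Adj x y then X x y else 0 with hC
  have hsplit : ∀ x y, X x y = C x y + ((if x = y then X x x else 0) +
      (if F.Adj x y then X x y else 0)) := by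
    intro x y
    simp only [hC, SimpleGraph.compl_adj]
    by_cases hxy : x = y
    · subst hxy
      simp
    · by_cases ha : F.Adj x y
      · simp [hxy, ha]
      · simp [hxy, ha]
  have hQC : ∀ u : Fin n → ℝ, -∑ x, d x * u x ^ 2 ≤ Q C u := by
    intro u
    have h0 := hX2 u
    set S := ∑ x, u x ^ 2 with hS
    have hle : ∀ x, u x ^ 2 ≤ S := fun x =>
      single_le_sum (f := fun x => u x ^ 2) (fun i _ => sq_nonneg _) (mem_univ x)
    have e1 : Q X u = Q C u + (∑ x, X x x * u x ^ 2 +
        ∑ x, ∑ y, (if F.Adj x y then X x y else 0) * u x * u y) := by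
      have e2 : ∑ x, X x x * u x ^ 2 = ∑ x, ∑ y, (if x = y then X x x else 0) * u x * u y := by
        apply sum_congr rfl
        intro x _
        rw [sum_eq_single x]
        · simp; ring
        · intro y _ hy
          simp [Ne.symm hy]
        · simp
      rw [e2]
      unfold Q
      rw [← sum_add_distrib, ← sum_add_distrib]
      apply sum_congr rfl
      intro x _
      rw [← sum_add_distrib, ← sum_add_distrib]
      apply sum_congr rfl
      intro y _
      conv_lhs => rw [hsplit x y]
      ring
    have e3 : ∑ x, ∑ y, (if F.Adj x y then X x y else 0) * u x * u y ≤ W * S := by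
      rw [hW, sum_mul]
      apply sum_le_sum
      intro x _
      rw [sum_mul]
      apply sum_le_sum
      intro y _
      split_ifs
      · have h3 : |u x * u y| ≤ S := by
          rw [abs_le]
          have h4 := hle x
          have h5 := hle y
          constructor
          · nlinarith [sq_nonneg (u x + u y)]
          · nlinarith [sq_nonneg (u x - u y)]
        calc X x y * u x * u y ≤ |X x y * (u x * u y)| := by
              rw [mul_assoc]; exact le_abs_self _
          _ = |X x y| * |u x * u y| := abs_mul _ _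
          _ ≤ |X x y| * S := by gcongr
      · simp
    have hS0 : 0 ≤ S := sum_nonneg fun x _ => sq_nonneg _
    have e4 : W * S ≤ ε * S := by gcongr
    have e5 : ∑ x, d x * u x ^ 2 = ∑ x, X x x * u x ^ 2 + ε * S := by
      rw [hS, mul_sum, ← sum_add_distrib]
      apply sum_congr rfl
      intro x _
      simp only [hd]
      ring
    rw [e5]
    linarith
  refine ⟨fun x y => C x y / (√(d x) * √(d y)), fun x y => ?_, fun x y hxy => ?_, fun z => ?_,
    fun x => √(d x), ?_⟩
  · have : C x y = C y x := by
      have : Fᶜ.Adj x y ↔ Fᶜ.Adj y x := ⟨fun h => h.symm, fun h => h.symm⟩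
      simp only [hC, this, hX1 x y]
    show C x y / (√(d x) * √(d y)) = C y x / (√(d y) * √(d x))
    rw [this, mul_comm (√(d x))]
  · show C x y / (√(d x) * √(d y)) = 0
    have : C x y = 0 := if_neg hxy
    rw [this, zero_div]
  · have h2 := hQC (fun x => z x / √(d x))
    have e1 : ∑ x, d x * (z x / √(d x)) ^ 2 = ∑ x, z x ^ 2 := by
      apply sum_congr rfl
      intro x _
      rw [div_pow, Real.sq_sqrt (hd0 x).le]
      field_simp [(hd0 x).ne']
    rw [e1] at h2
    refine h2.trans (le_of_eq ?_)
    unfold Q
    apply sum_congr rfl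
    intro x _
    apply sum_congr rfl
    intro y _
    ring
  · have e1 : ∑ x, √(d x) ^ 2 = 2 := by
      have : ∀ x, √(d x) ^ 2 = X x x + ε := fun x => Real.sq_sqrt (hd0 x).le
      simp only [this, sum_add_distrib, hX3, sum_const, card_univ, Fintype.card_fin, nsmul_eq_mul]
      rw [hε]
      field_simp
      norm_num
    have e2 : Q (fun x y => C x y / (√(d x) * √(d y))) (fun x => √(d x)) = ∑ x, ∑ y, C x y := by
      unfold Q
      apply sum_congr rfl
      intro x _
      apply sum_congr rfl
      intro y _
      have h3 : √(d x) ≠ 0 := (Real.sqrt_pos.2 (hd0 x)).ne'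
      have h4 : √(d y) ≠ 0 := (Real.sqrt_pos.2 (hd0 y)).ne'
      field_simp
    have e3 : SX = ∑ x, ∑ y, C x y + (1 + ∑ x, ∑ y, if F.Adj x y then X x y else 0) := by
      rw [← hX3]
      have e4 : ∑ x, X x x = ∑ x, ∑ y, (if x = y then X x x else 0) := by
        apply sum_congr rfl
        intro x _
        rw [sum_eq_single x]
        · simp
        · intro y _ hy
          simp [Ne.symm hy]
        · simp
      rw [e4, hSX, ← sum_add_distrib, ← sum_add_distrib]
      apply sum_congr rfl
      intro x _
      rw [← sum_add_distrib, ← sum_add_distrib]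
      apply sum_congr rfl
      intro y _
      exact hsplit x y
    have e5 : ∑ x, ∑ y, (if F.Adj x y then X x y else 0) ≤ W := by
      apply sum_le_sum
      intro x _
      apply sum_le_sum
      intro y _
      split_ifs
      · exact le_abs_self _
      · exact le_rfl
    rw [e1, e2]
    linarith

theorem taskDual : TaskDual := by
  intro n κ hκ hn F
  have hκR : (1 : ℝ) ≤ κ := by exact_mod_cast hκ
  have hnR : 4 * ((κ : ℝ) + 1) ^ 2 ≤ n := by exact_mod_cast hn
  have hn1 : 1 ≤ n := by nlinarith
  have hn1R : (1 : ℝ) ≤ n := by exact_mod_cast hn1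
  obtain ⟨T, hT, X, hX, hsad⟩ := saddle F ((n : ℝ) ^ 3) (by positivity) hn1
  set v : ℝ := ∑ x, ∑ y, (1 + T x y) * X x y with hv
  by_cases hcase : v < 4 * (κ + 1)
  · left
    have hv1 : 1 ≤ v := by
      -- test with the identity over n
      have hmem : (fun x y : Fin n => if x = y then 1 / (n : ℝ) else 0) ∈ XX n := by
        refine ⟨fun x y => ?_, fun z => ?_, ?_, fun x y => ?_⟩
        · by_cases h : x = y
          · simp [h]
          · simp [h, Ne.symm h]
        · unfold Q
          apply sum_nonneg
          intro x _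
          apply sum_nonneg
          intro y _
          by_cases h : x = y
          · subst h
            simp only [if_true]
            have : 0 ≤ z x * z x := mul_self_nonneg _
            rw [mul_assoc]
            positivity
          · simp [h]
        · simp only [if_true, sum_const, card_univ, Fintype.card_fin, nsmul_eq_mul]
          field_simp
        · dsimp only
          split_ifs
          · constructor
            · have : (0 : ℝ) ≤ 1 / n := by positivity
              linarith
            · rw [div_le_one (by linarith)]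
              exact hn1R
          · constructor <;> norm_num
      have h1 := hsad T hT _ hmem
      have h2 : ∑ x, ∑ y, (1 + T x y) * (if x = y then 1 / (n : ℝ) else 0) = 1 := by
        have h3 : ∀ x : Fin n, ∑ y, (1 + T x y) * (if x = y then 1 / (n : ℝ) else 0) = 1 / n := by
          intro x
          rw [sum_eq_single x]
          · rw [hT.2.1 x x (fun h => h.ne rfl)]
            simp
          · intro y _ hy
            simp [Ne.symm hy]
          · simp
        simp only [h3, sum_const, card_univ, Fintype.card_fin, nsmul_eq_mul]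
        field_simp
      linarith
    refine cert_first F κ v hn1 (by linarith) ?_ T hT.1 hT.2.1 (fun X' hX' => hsad T hT X' hX')
    nlinarith
  · right
    push Not at hcase
    exact cert_second F κ v _ hn1 rfl (by linarith) (by linarith) X hX
      (fun T' hT' => hsad T' hT' X hX)

end Pool.Agent.H866R4.VD.DualPart
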