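import Mathlib
import Pool.Agent.H866R4.VD.Stmts

set_option autoImplicit false

open Finset Matrix

namespace Pool.Agent.H866R4.VD

theorem NoHom_dot {V : Type} [Fintype V] (M : Matrix V V ℝ) (z : V → ℝ) :
    star z ⬝ᵥ (M *ᵥ z) = ∑ x, ∑ y, M x y * z x * z y := by
  simp only [dotProduct, mulVec, Pi.star_apply, star_trivial, Finset.mul_sum]
  refine Finset.sum_congr rfl fun x _ => Finset.sum_congr rfl fun y _ => ?_
  ring

theorem taskNoHom : TaskNoHom := by
  classical
  intro V W _ _ H F κ hκ hH hF
  obtain ⟨A, hAs, hA0, hA1, w, hw⟩ := hH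
  obtain ⟨U, hUs, hUp, hU1, hUe⟩ := hF
  rintro ⟨h⟩
  -- U is PSD
  have hU : (Matrix.of U : Matrix W W ℝ).PosSemidef := by
    refine Matrix.PosSemidef.of_dotProduct_mulVec_nonneg ?_ ?_
    · ext x y
      simp [Matrix.conjTranspose_apply, hUs x y]
    · intro z
      rw [NoHom_dot]
      exact hUp z
  have hU2 := hU.submatrix (fun x : V => h x)
  -- A + 1 is PSD
  have hA : ((Matrix.of A : Matrix V V ℝ) + 1).PosSemidef := by
    refine Matrix.PosSemidef.of_dotProduct_mulVec_nonneg ?_ ?_
    · refine Matrix.IsHermitian.add ?_ Matrix.isHermitian_one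
      ext x y
      simp [Matrix.conjTranspose_apply, hAs x y]
    · intro z
      rw [Matrix.add_mulVec, dotProduct_add, NoHom_dot, Matrix.one_mulVec]
      have h1 := hA1 z
      have h2 : star z ⬝ᵥ z = ∑ x, z x ^ 2 := by
        simp only [dotProduct, Pi.star_apply, star_trivial]
        exact Finset.sum_congr rfl fun x _ => by ring
      rw [h2]
      have h3 : ∑ x, ∑ y, (Matrix.of A) x y * z x * z y = Q A z := rfl
      rw [h3]
      linarith
  have hP := (hA.hadamard hU2).dotProduct_mulVec_nonneg w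
  rw [NoHom_dot] at hP
  have e : ∀ x y, ((Matrix.of A + 1) ⊙ (Matrix.of U).submatrix (fun x : V => h x)
      (fun x : V => h x)) x y = -(1 / κ) * A x y + if x = y then 1 else 0 := by
    intro x y
    rw [Matrix.hadamard_apply, Matrix.add_apply, Matrix.submatrix_apply, Matrix.of_apply,
      Matrix.of_apply, Matrix.one_apply]
    by_cases hxy : x = y
    · subst hxy
      have : A x x = 0 := hA0 x x (H.irrefl)
      rw [this, hU1]
      simp
    · rw [if_neg hxy]
      by_cases hadj : H.Adj x y
      · rw [hUe _ _ (h.map_adj hadj)]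
        ring
      · rw [hA0 x y hadj]
        ring
  simp only [e] at hP
  have e2 : ∑ x, ∑ y, (-(1 / κ) * A x y + if x = y then (1 : ℝ) else 0) * w x * w y =
      -(1 / κ) * Q A w + ∑ x, w x ^ 2 := by
    unfold Q
    rw [Finset.mul_sum, ← Finset.sum_add_distrib]
    refine Finset.sum_congr rfl fun x _ => ?_
    rw [Finset.mul_sum]
    have : ∑ y, (-(1 / κ) * A x y + if x = y then (1 : ℝ) else 0) * w x * w y =
        ∑ y, (-(1 / κ) * (A x y * w x * w y)) + ∑ y, if x = y then w x * w y else 0 := by
      rw [← Finset.sum_add_distrib]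
      refine Finset.sum_congr rfl fun y _ => ?_
      split_ifs <;> ring
    rw [this]
    simp [pow_two]
  rw [e2] at hP
  have h4 : Q A w ≤ κ * ∑ x, w x ^ 2 := by
    have h5 : (1 / κ) * Q A w ≤ ∑ x, w x ^ 2 := by linarith
    have h6 := mul_le_mul_of_nonneg_left h5 hκ.le
    have h7 : κ * (1 / κ * Q A w) = Q A w := by field_simp
    linarith
  linarith

end Pool.Agent.H866R4.VD
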